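import Pool.Agent.Lib_helper73.MET.R7c

/-! # MP_760942_al: block E1 -/

set_option autoImplicit false

namespace Pool.Agent.MET

/-- the change of variables with signs -/
theorem e1_tw {k k' : ℕ} (σ : (Fin k → ℤ) ≃+ (Fin k' → ℤ)) (ε : (Fin k → ℤ) → ℤ)
    (h1 : ∀ v, ε v = 1 ∨ ε v = -1) (h2 : ∀ v w, ε (v + w) = ε v * ε w) :
    ∃ τ : L k →+* L k', ∀ v, τ (xp v) = ε v • xp (σ v) := by
  have h0 : ε 0 = 1 := by
    have h3 := h2 0 0
    rw [add_zero] at h3
    rcases h1 0 with h | h
    · exact h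
    · rw [h] at h3
      norm_num at h3
  let F : Multiplicative (Fin k → ℤ) →* L k' :=
    { toFun := fun v => ε (Multiplicative.toAdd v) • xp (σ (Multiplicative.toAdd v))
      map_one' := by
        show ε 0 • (xp (σ 0) : L k') = 1
        rw [h0, one_smul, map_zero, xp_zero]
      map_mul' := fun v w => by
        show ε (Multiplicative.toAdd v + Multiplicative.toAdd w) •
          (xp (σ (Multiplicative.toAdd v + Multiplicative.toAdd w)) : L k') = _
        rw [h2, map_add, xp_add, smul_mul_smul_comm] }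
  refine ⟨(AddMonoidAlgebra.lift ℤ (L k') (Fin k → ℤ) F : L k →+* L k'), fun v => ?_⟩
  have := AddMonoidAlgebra.lift_single (R := ℤ) (A := L k') F v (1 : ℤ)
  rw [one_smul] at this
  exact this

/-- the general form of R7c -/
theorem e1_gen {k k' : ℕ} {M M' S S' : Type} [AddCommGroup M] [Module (L k) M] [AddCommGroup M'] [Module (L k') M']
    [CommRing S] [CommRing S'] (D : RingData k M S) (D' : RingData k' M' S')
    (τ : L k →+* L k') (τ' : L k' →+* L k) (t1 : ∀ a, τ' (τ a) = a) (t2 : ∀ a, τ (τ' a) = a) (φ : M ≃+ M')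
    (hφ : ∀ (a : L k) (m : M), φ (a • m) = τ a • φ m) :
    Nonempty (S ≃+* S') := by
  obtain ⟨μ, h1, h2, h3, h4⟩ := r7c_mu D
  obtain ⟨μ', h1', h2', h3', -⟩ := r7c_mu D'
  have hm1 : μ 1 = 0 := by rw [← map_one D.κ, h3]
  let f : S →+* S' :=
    { toFun := fun s => D'.κ (τ (D.π s)) + D'.j (φ (μ s))
      map_one' := by rw [map_one, map_one, map_one, hm1, map_zero, map_zero, add_zero]
      map_zero' := by rw [map_zero, map_zero, map_zero, map_zero, map_zero, map_zero, add_zero]
      map_add' := fun s t => by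
        rw [map_add, map_add, map_add, map_add, map_add, map_add]
        ring
      map_mul' := fun s t => by
        have e1 := D'.sq (φ (μ s)) (φ (μ t))
        rw [h4, map_mul, map_mul, map_mul, map_add, map_add, hφ, hφ, ← D'.smul, ← D'.smul]
        linear_combination -e1 }
  have hf : ∀ s, f s = D'.κ (τ (D.π s)) + D'.j (φ (μ s)) := fun _ => rfl
  refine ⟨RingEquiv.ofBijective f ⟨?_, ?_⟩⟩
  · rw [injective_iff_map_eq_zero]
    intro s hs
    rw [hf] at hs
    have e1 : τ (D.π s) = 0 := by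
      have := congrArg D'.π hs
      rwa [map_add, D'.πκ, D'.πj, add_zero, map_zero] at this
    rw [e1, map_zero, zero_add] at hs
    have e2 : φ (μ s) = 0 := D'.inj (by rw [hs, map_zero])
    have e3 : μ s = 0 := φ.injective (by rw [e2, map_zero])
    have e4 : D.π s = 0 := by rw [← t1 (D.π s), e1, map_zero]
    rw [h1 s, e3, e4, map_zero, map_zero, add_zero]
  · intro t
    refine ⟨D.κ (τ' (D'.π t)) + D.j (φ.symm (μ' t)), ?_⟩
    rw [hf, map_add, D.πκ, D.πj, add_zero, t2, map_add, h3, h2, zero_add,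
      AddEquiv.apply_symm_apply]
    exact (h1' t).symm

/-- E1: as r7c, with signs -/
theorem r7d {k k' : ℕ} {M M' S S' : Type} [AddCommGroup M] [Module (L k) M] [AddCommGroup M'] [Module (L k') M']
    [CommRing S] [CommRing S'] (D : RingData k M S) (D' : RingData k' M' S')
    (σ : (Fin k → ℤ) ≃+ (Fin k' → ℤ)) (ε : (Fin k → ℤ) → ℤ) (φ : M ≃+ M')
    (h1 : ∀ v, ε v = 1 ∨ ε v = -1) (h2 : ∀ v w, ε (v + w) = ε v * ε w)
    (h : ∀ (v : Fin k → ℤ) (m : M), φ ((xp v : L k) • m) = ε v • (xp (σ v) : L k') • φ m) :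
    Nonempty (S ≃+* S') := by
  obtain ⟨τ, hτ⟩ := e1_tw σ ε h1 h2
  obtain ⟨τ', hτ'⟩ := e1_tw σ.symm (fun v => ε (σ.symm v)) (fun v => h1 _) (fun v w => by rw [map_add, h2])
  have hs : ∀ v, ε v * ε v = 1 := by
    intro v
    rcases h1 v with h | h <;> rw [h] <;> norm_num
  refine e1_gen D D' τ τ' ?_ ?_ φ ?_
  · intro a
    refine L_induction (motive := fun a => τ' (τ a) = a) a ?_ ?_ ?_ ?_
    · rw [map_zero, map_zero]
    · intro a b ha hb
      rw [map_add, map_add, ha, hb]
    · intro a ha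
      rw [map_neg, map_neg, ha]
    · intro v
      rw [hτ, map_zsmul, hτ', AddEquiv.symm_apply_apply, smul_smul, hs, one_smul]
  · intro a
    refine L_induction (motive := fun a => τ (τ' a) = a) a ?_ ?_ ?_ ?_
    · rw [map_zero, map_zero]
    · intro a b ha hb
      rw [map_add, map_add, ha, hb]
    · intro a ha
      rw [map_neg, map_neg, ha]
    · intro v
      rw [hτ', map_zsmul, hτ, AddEquiv.apply_symm_apply, smul_smul, hs, one_smul]
  · intro a m
    refine L_induction (motive := fun a => φ (a • m) = τ a • φ m) a ?_ ?_ ?_ ?_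
    · rw [zero_smul, map_zero, map_zero, zero_smul]
    · intro a b ha hb
      rw [add_smul, map_add, ha, hb, map_add, add_smul]
    · intro a ha
      rw [neg_smul, map_neg, ha, map_neg, neg_smul]
    · intro v
      rw [h, hτ, smul_assoc]

end Pool.Agent.MET
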