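import Pool.Agent.Lib_helper53.MET.Defs2

/-! # MP_760942_al: block PIN1 -/

set_option autoImplicit false

namespace Pool.Agent.MET

/-- add a coordinate in front -/
def pin1_c {k : ℕ} (a : ℤ) (v : Fin k → ℤ) : Fin (k + 1) → ℤ := Fin.cons (α := fun _ => ℤ) a v

theorem pin1_c_add {k : ℕ} (a b : ℤ) (v w : Fin k → ℤ) :
    pin1_c (a + b) (v + w) = pin1_c a v + pin1_c b w := by
  funext i
  refine Fin.cases ?_ (fun i => ?_) i
  · rfl
  · rfl

theorem pin1_c_zero {k : ℕ} : pin1_c 0 (0 : Fin k → ℤ) = 0 := by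
  funext i
  refine Fin.cases ?_ (fun i => ?_) i
  · rfl
  · rfl

theorem pin1_c_tail {k : ℕ} (w : Fin (k + 1) → ℤ) : pin1_c (w 0) (Fin.tail w) = w := by
  funext i
  refine Fin.cases ?_ (fun i => ?_) i
  · rfl
  · rfl

theorem pin1_fr {k : ℕ} (a b : ℤ) (v : Fin k → ℤ) : fr a b v = pin1_c a (pin1_c b v) := rfl

/-- extend a change of variables by the identity -/
def pin1_l {k k' : ℕ} (σ : (Fin k → ℤ) ≃+ (Fin k' → ℤ)) : (Fin (k + 1) → ℤ) ≃+ (Fin (k' + 1) → ℤ) where
  toFun w := pin1_c (w 0) (σ (Fin.tail w))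
  invFun w := pin1_c (w 0) (σ.symm (Fin.tail w))
  left_inv w := by
    show pin1_c (w 0) (σ.symm (σ (Fin.tail w))) = w
    rw [AddEquiv.symm_apply_apply, pin1_c_tail]
  right_inv w := by
    show pin1_c (w 0) (σ (σ.symm (Fin.tail w))) = w
    rw [AddEquiv.apply_symm_apply, pin1_c_tail]
  map_add' v w := by
    show pin1_c (v 0 + w 0) (σ (Fin.tail v + Fin.tail w)) = _
    rw [map_add, pin1_c_add]

theorem pin1_l_c {k k' : ℕ} (σ : (Fin k → ℤ) ≃+ (Fin k' → ℤ)) (a : ℤ) (v : Fin k → ℤ) :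
    pin1_l σ (pin1_c a v) = pin1_c a (σ v) := rfl

theorem pin1_l_symm {k k' : ℕ} (σ : (Fin k → ℤ) ≃+ (Fin k' → ℤ)) : (pin1_l σ).symm = pin1_l σ.symm := rfl

theorem pin1_l_fr {k k' : ℕ} (σ : (Fin k → ℤ) ≃+ (Fin k' → ℤ)) (a b : ℤ) (v : Fin k → ℤ) :
    pin1_l (pin1_l σ) (fr a b v) = fr a b (σ v) := rfl

theorem pin1_mon_sh {k : ℕ} (w : Word) : mon (k + 1) (sh 1 w) = pin1_c 0 (mon k w) := by
  funext i
  refine Fin.cases ?_ (fun i => ?_) i
  · show mon (k + 1) (sh 1 w) 0 = 0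
    unfold mon sh
    rw [List.map_map]
    apply List.sum_eq_zero
    intro x hx
    rw [List.mem_map] at hx
    obtain ⟨p, -, rfl⟩ := hx
    simp
  · show mon (k + 1) (sh 1 w) i.succ = mon k w i
    unfold mon sh
    rw [List.map_map]
    congr 1
    apply List.map_congr_left
    intro p _
    simp

theorem pin1_mon_succ {k : ℕ} (j : ℕ) : mon (k + 1) [(j + 1, true)] = pin1_c 0 (mon k [(j, true)]) :=
  pin1_mon_sh [(j, true)]

theorem pin1_mon_zero {k : ℕ} : mon (k + 1) [(0, true)] = pin1_c 1 (0 : Fin k → ℤ) := by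
  funext i
  refine Fin.cases ?_ (fun i => ?_) i
  · show mon (k + 1) [(0, true)] 0 = 1
    simp [mon]
  · show mon (k + 1) [(0, true)] i.succ = 0
    simp [mon]

theorem pin1_mon_one {k : ℕ} : mon (k + 2) [(1, true)] = pin1_c 0 (pin1_c 1 (0 : Fin k → ℤ)) := by
  have h : mon (k + 1 + 1) [(0 + 1, true)] = pin1_c 0 (mon (k + 1) [(0, true)]) := pin1_mon_succ 0
  rw [pin1_mon_zero] at h
  exact h

theorem pin1_mon_two {k : ℕ} :
    mon (k + 3) [(2, true)] = pin1_c 0 (pin1_c 0 (pin1_c 1 (0 : Fin k → ℤ))) := by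
  have h : mon (k + 2 + 1) [(1 + 1, true)] = pin1_c 0 (mon (k + 2) [(1, true)]) := pin1_mon_succ 1
  rw [pin1_mon_one] at h
  exact h

/-- the monomials which fix an element form a subgroup -/
def pin1_fix {k : ℕ} {B : Type*} [AddCommGroup B] [Module (L k) B] (x : B) : AddSubgroup (Fin k → ℤ) where
  carrier := {v | (xp v : L k) • x = x}
  zero_mem' := by
    show (xp 0 : L k) • x = x
    rw [xp_zero, one_smul]
  add_mem' {v w} hv hw := by
    show (xp (v + w) : L k) • x = x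
    rw [xp_add, mul_smul, show (xp w : L k) • x = x from hw]
    exact hv
  neg_mem' {v} hv := by
    show (xp (-v) : L k) • x = x
    conv_lhs => rw [← (show (xp v : L k) • x = x from hv)]
    rw [smul_smul, ← xp_add, neg_add_cancel, xp_zero, one_smul]

/-- the module inside the pinned module -/
theorem pin1_iota (c : MCode) :
    ∃ ι : PM (c.1 + 2) c.2.1 c.2.2 →+ Mp c, (∀ i, i < c.2.1 → ι (gen i) = gen (i + 2)) ∧
      ∀ (e : ℤ) (w : Fin (c.1 + 2) → ℤ) m, (xp (pin1_c e w) : L (c.1 + 3)) • ι m = ι ((xp w : L (c.1 + 2)) • m) := by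
  obtain ⟨k, b, R⟩ := c
  simp only
  have hpin : (pin (k, b, R)).2.2 = R.map (shr 2 1)
    ++ (List.range b).map (fun i => eqn 0 (i + 2) 1)
    ++ [eqn 0 0 2, eqn 1 0 1, eqn 2 0 1, eqn 0 1 2, eqn 1 1 5, eqn 2 1 7]
    ++ (List.range k).map (fun j => eqn (j + 3) 1 1) := rfl
  obtain ⟨ι, h1, h2⟩ := up (k := k + 2) (b := b) (R := R) (B := Mp (k, b, R))
    (fun w => DistribSMul.toAddMonoidHom _ (xp (pin1_c 0 w) : L (k + 3)))
    (fun x => by
      show (xp (pin1_c 0 0) : L (k + 3)) • x = x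
      rw [pin1_c_zero, xp_zero, one_smul])
    (fun v w x => by
      show (xp (pin1_c 0 (v + w)) : L (k + 3)) • x =
        (xp (pin1_c 0 v) : L (k + 3)) • (xp (pin1_c 0 w) : L (k + 3)) • x
      have := pin1_c_add 0 0 v w
      rw [add_zero] at this
      rw [this, xp_add, mul_smul])
    (fun i => gen (i + 2)) (by
      intro r hr
      have hr' : shr 2 1 r ∈ (pin (k, b, R)).2.2 := by
        rw [hpin]
        simp only [List.mem_append, List.mem_map]
        exact Or.inl (Or.inl (Or.inl ⟨r, hr, rfl⟩))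
      rw [← pm_rel (k := k + 3) (b := b + 2) _ hr']
      unfold ev shr
      rw [List.map_map]
      congr 1
      apply List.map_congr_left
      intro t _
      show (if t.1 < b then sg t.2.1 • ((xp (pin1_c 0 (mon (k + 2) t.2.2)) : L (k + 3)) •
        (gen (t.1 + 2) : Mp (k, b, R))) else 0) =
        sg t.2.1 • ((xp (mon (k + 3) (sh 1 t.2.2)) : L (k + 3)) • (gen (t.1 + 2) : Mp (k, b, R)))
      rw [pin1_mon_sh]
      split_ifs with h
      · rfl
      · rw [gen_of_le (by simpa using Nat.not_lt.1 h), smul_zero, smul_zero])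
  replace h2 : ∀ (w : Fin (k + 2) → ℤ) m, ι (xp w • m) = (xp (pin1_c 0 w) : L (k + 3)) • ι m := h2
  refine ⟨ι, h1, ?_⟩
  -- the first variable fixes the image
  have hz : ∀ m, (xp (pin1_c 1 0) : L (k + 3)) • ι m = ι m := by
    intro m
    refine pm_induction (motive := fun m => (xp (pin1_c 1 0) : L (k + 3)) • ι m = ι m) m ?_ ?_ ?_ ?_
    · rw [map_zero, smul_zero]
    · intro a b ha hb
      rw [map_add, smul_add, ha, hb]
    · intro a ha
      rw [map_neg, smul_neg, ha]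
    · intro v i hi
      have e0 := pm_eqn (k := k + 3) (b := b + 2) (R := (pin (k, b, R)).2.2) 0 (i + 2) 1 (by
        rw [hpin]
        simp only [List.mem_append, List.mem_map]
        exact Or.inl (Or.inl (Or.inr ⟨i, List.mem_range.2 hi, rfl⟩)))
      rw [one_smul, pin1_mon_zero] at e0
      rw [h2, h1 i hi, smul_smul, mul_comm, mul_smul, e0]
  intro e w m
  have h3 : pin1_c e w = e • pin1_c 1 (0 : Fin (k + 2) → ℤ) + pin1_c 0 w := by
    funext i
    refine Fin.cases ?_ (fun i => ?_) i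
    · simp [pin1_c]
    · simp [pin1_c]
  have h4 : e • pin1_c 1 (0 : Fin (k + 2) → ℤ) ∈ pin1_fix (ι ((xp w : L (k + 2)) • m)) :=
    AddSubgroup.zsmul_mem _ (hz _) e
  rw [h3, xp_add, mul_smul, ← h2]
  exact h4

/-- the map of the pinned modules -/
theorem pin1_map {k k' b b' : ℕ} {R R' : List Rel} (σ : (Fin k → ℤ) ≃+ (Fin k' → ℤ))
    (φ : PM (k + 2) b R →+ PM (k' + 2) b' R')
    (h : ∀ (a b : ℤ) v m, φ ((xp (fr a b v) : L (k + 2)) • m) = (xp (fr a b (σ v)) : L (k' + 2)) • φ m)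
    (ι' : PM (k' + 2) b' R' →+ Mp (k', b', R'))
    (hι' : ∀ (e : ℤ) (w : Fin (k' + 2) → ℤ) m, (xp (pin1_c e w) : L (k' + 3)) • ι' m =
      ι' ((xp w : L (k' + 2)) • m)) :
    ∃ Φ : Mp (k, b, R) →+ Mp (k', b', R'), Φ (gen 0) = gen 0 ∧ Φ (gen 1) = gen 1 ∧
      (∀ i, i < b → Φ (gen (i + 2)) = ι' (φ (gen i))) ∧
      ∀ (w : Fin (k + 3) → ℤ) m, Φ ((xp w : L (k + 3)) • m) =
        (xp (pin1_l (pin1_l (pin1_l σ)) w) : L (k' + 3)) • Φ m := by
  have hpin : (pin (k, b, R)).2.2 = R.map (shr 2 1)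
    ++ (List.range b).map (fun i => eqn 0 (i + 2) 1)
    ++ [eqn 0 0 2, eqn 1 0 1, eqn 2 0 1, eqn 0 1 2, eqn 1 1 5, eqn 2 1 7]
    ++ (List.range k).map (fun j => eqn (j + 3) 1 1) := rfl
  have hpin' : (pin (k', b', R')).2.2 = R'.map (shr 2 1)
    ++ (List.range b').map (fun i => eqn 0 (i + 2) 1)
    ++ [eqn 0 0 2, eqn 1 0 1, eqn 2 0 1, eqn 0 1 2, eqn 1 1 5, eqn 2 1 7]
    ++ (List.range k').map (fun j => eqn (j + 3) 1 1) := rfl
  set s := pin1_l (pin1_l (pin1_l σ)) with hs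
  have hφ : ∀ (w : Fin (k + 2) → ℤ) m, φ ((xp w : L (k + 2)) • m) =
      (xp (pin1_l (pin1_l σ) w) : L (k' + 2)) • φ m := by
    intro w m
    have e1 : w = fr (w 0) (w 1) (Fin.tail (Fin.tail w)) := by
      rw [pin1_fr, show w 1 = Fin.tail w 0 from rfl, pin1_c_tail, pin1_c_tail]
    rw [e1, h, pin1_l_fr]
  let β : ℕ → Mp (k', b', R') := fun i => if i = 0 then gen 0 else if i = 1 then gen 1 else
    ι' (φ (gen (i - 2)))
  have β0 : β 0 = gen 0 := rfl
  have β1 : β 1 = gen 1 := rfl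
  have β2 : ∀ i, β (i + 2) = ι' (φ (gen i)) := fun i => rfl
  -- the equations
  have q : ∀ (j i m : ℕ), eqn j i m ∈ (pin (k', b', R')).2.2 →
      (xp (mon (k' + 3) [(j, true)]) : L (k' + 3)) • (gen i : Mp (k', b', R')) = m • gen i :=
    fun j i m hm => pm_eqn (k := k' + 3) (b := b' + 2) j i m hm
  have s0 : s (mon (k + 3) [(0, true)]) = mon (k' + 3) [(0, true)] := by
    rw [pin1_mon_zero, hs, pin1_l_c, map_zero, pin1_mon_zero]
  have s1 : s (mon (k + 3) [(1, true)]) = mon (k' + 3) [(1, true)] := by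
    rw [pin1_mon_one, hs, pin1_l_c, pin1_l_c, map_zero, pin1_mon_one]
  have s2 : s (mon (k + 3) [(2, true)]) = mon (k' + 3) [(2, true)] := by
    rw [pin1_mon_two, hs, pin1_l_c, pin1_l_c, pin1_l_c, map_zero, pin1_mon_two]
  have hx : ∀ v : Fin k' → ℤ, (xp (pin1_c 0 (pin1_c 0 (pin1_c 0 v))) : L (k' + 3)) •
      (gen 1 : Mp (k', b', R')) = gen 1 := by
    intro v
    have e1 : v = ∑ i : Fin k', v i • (Pi.single i 1 : Fin k' → ℤ) := by
      funext j
      simp [Finset.sum_apply, Pi.single_apply]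
    let c3 : (Fin k' → ℤ) →+ (Fin (k' + 3) → ℤ) :=
      { toFun := fun v => pin1_c 0 (pin1_c 0 (pin1_c 0 v))
        map_zero' := by rw [pin1_c_zero, pin1_c_zero, pin1_c_zero]
        map_add' := fun v w => by
          have e2 : ∀ {n : ℕ} (v w : Fin n → ℤ), pin1_c 0 (v + w) = pin1_c 0 v + pin1_c 0 w := by
            intro n v w
            have := pin1_c_add 0 0 v w
            rwa [add_zero] at this
          rw [e2, e2, e2] }
    have e3 : v ∈ (pin1_fix (gen 1 : Mp (k', b', R'))).comap c3 := by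
      rw [e1]
      apply AddSubgroup.sum_mem
      intro i _
      apply AddSubgroup.zsmul_mem
      show (xp (pin1_c 0 (pin1_c 0 (pin1_c 0 (Pi.single i 1)))) : L (k' + 3)) •
        (gen 1 : Mp (k', b', R')) = gen 1
      have e4 := q ((i : ℕ) + 3) 1 1 (by
        rw [hpin']
        simp only [List.mem_append, List.mem_map]
        exact Or.inr ⟨i, List.mem_range.2 i.2, rfl⟩)
      rw [show (i : ℕ) + 3 = i + 1 + 1 + 1 from rfl, pin1_mon_succ, pin1_mon_succ, pin1_mon_succ,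
        mon_single _ _ i.2, one_smul] at e4
      exact e4
    exact e3
  have hev : ∀ (j i m : ℕ), i < b + 2 → (xp (s (mon (k + 3) [(j, true)])) : L (k' + 3)) • β i = m • β i →
      ev (fun w => DistribSMul.toAddMonoidHom (Mp (k', b', R')) (xp (s w) : L (k' + 3))) (b + 2) β
        (eqn j i m) = 0 := by
    intro j i m hi he
    rw [ev_eqn _ _ (fun x => by
      show (xp (s 0) : L (k' + 3)) • x = x
      rw [map_zero, xp_zero, one_smul]) _ _ _ hi]
    show (xp (s (mon (k + 3) [(j, true)])) : L (k' + 3)) • β i - m • β i = 0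
    rw [he, sub_self]
  obtain ⟨Φ, h1, h2⟩ := up (k := k + 3) (b := b + 2) (R := (pin (k, b, R)).2.2) (B := Mp (k', b', R'))
    (fun w => DistribSMul.toAddMonoidHom _ (xp (s w) : L (k' + 3)))
    (fun x => by
      show (xp (s 0) : L (k' + 3)) • x = x
      rw [map_zero, xp_zero, one_smul])
    (fun v w x => by
      show (xp (s (v + w)) : L (k' + 3)) • x =
        (xp (s v) : L (k' + 3)) • (xp (s w) : L (k' + 3)) • x
      rw [map_add, xp_add, mul_smul])
    β (by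
      intro r hr
      rw [hpin] at hr
      simp only [List.mem_append, List.mem_map, List.mem_cons, List.not_mem_nil, or_false] at hr
      rcases hr with ((⟨r, hr, rfl⟩ | ⟨i, hi, rfl⟩) | hr) | ⟨j, hj, rfl⟩
      · have e1 := congrArg (fun m => ι' (φ m)) (pm_rel (k := k + 2) (b := b) r hr)
        simp only [map_zero] at e1
        rw [← e1, map_list_sum, map_list_sum, List.map_map, List.map_map]
        unfold ev shr
        rw [List.map_map]
        congr 1
        apply List.map_congr_left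
        intro t _
        show (if t.1 + 2 < b + 2 then sg t.2.1 • ((xp (s (mon (k + 3) (sh 1 t.2.2))) : L (k' + 3)) •
          β (t.1 + 2)) else 0) =
          ι' (φ (sg t.2.1 • ((xp (mon (k + 2) t.2.2) : L (k + 2)) • (gen t.1 : PM (k + 2) b R))))
        rw [pin1_mon_sh, hs, pin1_l_c, map_zsmul, map_zsmul, hφ, ← hι' 0, β2]
        split_ifs with h
        · rfl
        · rw [gen_of_le (by omega), map_zero, map_zero, smul_zero, smul_zero]
      · apply hev _ _ _ (by have := List.mem_range.1 hi; omega)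
        rw [β2, s0, pin1_mon_zero, hι', xp_zero, one_smul, one_smul]
      · have m0 : ∀ r ∈ [eqn 0 0 2, eqn 1 0 1, eqn 2 0 1, eqn 0 1 2, eqn 1 1 5, eqn 2 1 7],
            r ∈ (pin (k', b', R')).2.2 := by
          intro r hr
          rw [hpin']
          simp only [List.mem_append]
          exact Or.inl (Or.inr hr)
        rcases hr with rfl | rfl | rfl | rfl | rfl | rfl
        · apply hev _ _ _ (by omega)
          rw [s0, β0]
          exact q 0 0 2 (m0 _ (by simp))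
        · apply hev _ _ _ (by omega)
          rw [s1, β0]
          exact q 1 0 1 (m0 _ (by simp))
        · apply hev _ _ _ (by omega)
          rw [s2, β0]
          exact q 2 0 1 (m0 _ (by simp))
        · apply hev _ _ _ (by omega)
          rw [s0, β1]
          exact q 0 1 2 (m0 _ (by simp))
        · apply hev _ _ _ (by omega)
          rw [s1, β1]
          exact q 1 1 5 (m0 _ (by simp))
        · apply hev _ _ _ (by omega)
          rw [s2, β1]
          exact q 2 1 7 (m0 _ (by simp))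
      · apply hev _ _ _ (by omega)
        rw [show j + 3 = j + 1 + 1 + 1 from rfl, pin1_mon_succ, pin1_mon_succ, pin1_mon_succ, hs,
          pin1_l_c, pin1_l_c, pin1_l_c, β1, hx, one_smul])
  refine ⟨Φ, h1 0 (by omega), h1 1 (by omega), fun i hi => h1 (i + 2) (by omega), h2⟩

/-- the composition of the two maps -/
theorem pin1_comp {k k' b b' : ℕ} {R R' : List Rel} (σ : (Fin k → ℤ) ≃+ (Fin k' → ℤ))
    (φ : PM (k + 2) b R ≃+ PM (k' + 2) b' R')
    (h : ∀ (a b : ℤ) v m, φ ((xp (fr a b v) : L (k + 2)) • m) = (xp (fr a b (σ v)) : L (k' + 2)) • φ m)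
    (ι : PM (k + 2) b R →+ Mp (k, b, R)) (hι0 : ∀ i, i < b → ι (gen i) = gen (i + 2))
    (hι : ∀ (e : ℤ) (w : Fin (k + 2) → ℤ) m, (xp (pin1_c e w) : L (k + 3)) • ι m =
      ι ((xp w : L (k + 2)) • m))
    (ι' : PM (k' + 2) b' R' →+ Mp (k', b', R')) (hι0' : ∀ i, i < b' → ι' (gen i) = gen (i + 2))
    (hι' : ∀ (e : ℤ) (w : Fin (k' + 2) → ℤ) m, (xp (pin1_c e w) : L (k' + 3)) • ι' m =
      ι' ((xp w : L (k' + 2)) • m))
    (Φ : Mp (k, b, R) →+ Mp (k', b', R')) (f0 : Φ (gen 0) = gen 0) (f1 : Φ (gen 1) = gen 1)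
    (f2 : ∀ i, i < b → Φ (gen (i + 2)) = ι' (φ (gen i)))
    (f3 : ∀ (w : Fin (k + 3) → ℤ) m, Φ ((xp w : L (k + 3)) • m) =
        (xp (pin1_l (pin1_l (pin1_l σ)) w) : L (k' + 3)) • Φ m)
    (Φ' : Mp (k', b', R') →+ Mp (k, b, R)) (g0 : Φ' (gen 0) = gen 0) (g1 : Φ' (gen 1) = gen 1)
    (g2 : ∀ i, i < b' → Φ' (gen (i + 2)) = ι (φ.symm (gen i)))
    (g3 : ∀ (w : Fin (k' + 3) → ℤ) m, Φ' ((xp w : L (k' + 3)) • m) =
        (xp (pin1_l (pin1_l (pin1_l σ.symm)) w) : L (k + 3)) • Φ' m) (m : Mp (k, b, R)) :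
    Φ' (Φ m) = m := by
  have hφ : ∀ (w : Fin (k' + 2) → ℤ) m, φ.symm ((xp w : L (k' + 2)) • m) =
      (xp (pin1_l (pin1_l σ.symm) w) : L (k + 2)) • φ.symm m := by
    intro w m
    apply φ.injective
    have e1 : w = fr (w 0) (w 1) (Fin.tail (Fin.tail w)) := by
      rw [pin1_fr, show w 1 = Fin.tail w 0 from rfl, pin1_c_tail, pin1_c_tail]
    rw [AddEquiv.apply_symm_apply, e1, pin1_l_fr, h, AddEquiv.apply_symm_apply,
      AddEquiv.apply_symm_apply]
  have key : ∀ m', Φ' (ι' m') = ι (φ.symm m') := by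
    intro m'
    have e1 : Φ'.comp ι' = ι.comp φ.symm.toAddMonoidHom := by
      apply pm_ext
      intro v i hi
      show Φ' (ι' ((xp v : L (k' + 2)) • gen i)) = ι (φ.symm ((xp v : L (k' + 2)) • gen i))
      rw [← hι' 0, g3, hι0' i hi, g2 i hi, pin1_l_c, hι, hφ]
    exact DFunLike.congr_fun e1 m'
  have e1 : Φ'.comp Φ = AddMonoidHom.id _ := by
    apply pm_ext
    intro v i hi
    show Φ' (Φ ((xp v : L (k + 3)) • gen i)) = (xp v : L (k + 3)) • gen i
    have hv : pin1_l (pin1_l (pin1_l σ.symm)) (pin1_l (pin1_l (pin1_l σ)) v) = v :=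
      (pin1_l (pin1_l (pin1_l σ))).symm_apply_apply v
    rw [f3, g3, hv]
    congr 1
    match i, hi with
    | 0, _ => rw [f0, g0]
    | 1, _ => rw [f1, g1]
    | i + 2, hi =>
      have hi' : i < b := by
        have : i + 2 < b + 2 := hi
        omega
      rw [f2 i hi', key, AddEquiv.symm_apply_apply, hι0 i hi']
  exact DFunLike.congr_fun e1 m

/-- PIN1 (from PIN0) -/
theorem pin1 (p : MCode × MCode) (h : FrIso p) : SemiIso (pin p.1, pin p.2) := by
  obtain ⟨⟨k, b, R⟩, ⟨k', b', R'⟩⟩ := p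
  obtain ⟨σ, φ, h⟩ := h
  change (Fin k → ℤ) ≃+ (Fin k' → ℤ) at σ
  change PM (k + 2) b R ≃+ PM (k' + 2) b' R' at φ
  have h' : ∀ (a b : ℤ) v m, φ ((xp (fr a b v) : L (k + 2)) • m) =
    (xp (fr a b (σ v)) : L (k' + 2)) • φ m := h
  have h'' : ∀ (a b : ℤ) v m, φ.symm ((xp (fr a b v) : L (k' + 2)) • m) =
      (xp (fr a b (σ.symm v)) : L (k + 2)) • φ.symm m := by
    intro a b v m
    apply φ.injective
    rw [AddEquiv.apply_symm_apply, h', AddEquiv.apply_symm_apply, AddEquiv.apply_symm_apply]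
  obtain ⟨ι, hι0, hι⟩ := pin1_iota (k, b, R)
  obtain ⟨ι', hι0', hι'⟩ := pin1_iota (k', b', R')
  obtain ⟨Φ, f0, f1, f2, f3⟩ := pin1_map (b := b) (R := R) σ φ.toAddMonoidHom h' ι' hι'
  obtain ⟨Φ', g0, g1, g2, g3⟩ := pin1_map (b := b') (R := R') σ.symm φ.symm.toAddMonoidHom h'' ι hι
  have e1 : ∀ m, Φ' (Φ m) = m :=
    pin1_comp σ φ h' ι hι0 hι ι' hι0' hι' Φ f0 f1 f2 f3 Φ' g0 g1 g2 g3
  have e2 : ∀ m, Φ (Φ' m) = m :=
    pin1_comp σ.symm φ.symm h'' ι' hι0' hι' ι hι0 hι Φ' g0 g1 g2 g3 Φ f0 f1 f2 f3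
  exact ⟨pin1_l (pin1_l (pin1_l σ)),
    { toFun := Φ, invFun := Φ', left_inv := e1, right_inv := e2, map_add' := map_add Φ }, f3⟩

end Pool.Agent.MET
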