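import Pool.Agent.Lib_helper53.MET.Base

/-! # MP_760942_al: block R2 -/

set_option autoImplicit false

namespace Pool.Agent.MET

theorem r2_cons_add {k : ℕ} (a b : ℤ) (v w : Fin k → ℤ) :
    (Fin.cons (α := fun _ => ℤ) (a + b) (v + w) : Fin (k + 1) → ℤ) =
      Fin.cons (α := fun _ => ℤ) a v + Fin.cons (α := fun _ => ℤ) b w := by
  funext i
  refine Fin.cases ?_ (fun i => ?_) i
  · simp
  · simp

theorem r2_fr_add {k : ℕ} (a b a' b' : ℤ) (v w : Fin k → ℤ) :
    fr (a + a') (b + b') (v + w) = fr a b v + fr a' b' w := by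
  unfold fr
  rw [r2_cons_add, r2_cons_add]

theorem r2_fr_zero {k : ℕ} : fr 0 0 (0 : Fin k → ℤ) = 0 := by
  funext i
  refine Fin.cases ?_ (fun i => ?_) i
  · rfl
  · refine Fin.cases ?_ (fun i => ?_) i
    · rfl
    · rfl

/-- the coordinates behind the two framed ones -/
def r2_tl {k : ℕ} (w : Fin (k + 2) → ℤ) : Fin k → ℤ := fun i => w i.succ.succ

theorem r2_tl_fr {k : ℕ} (a b : ℤ) (v : Fin k → ℤ) : r2_tl (fr a b v) = v := by
  funext i
  rfl

theorem r2_fr_tl {k : ℕ} (w : Fin (k + 2) → ℤ) : fr (w 0) (w 1) (r2_tl w) = w := by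
  funext i
  refine Fin.cases ?_ (fun i => ?_) i
  · rfl
  · refine Fin.cases ?_ (fun i => ?_) i
    · rfl
    · rfl

theorem r2_mon_sh {k : ℕ} (w : Word) : mon (k + 2) (sh 2 w) = fr 0 0 (mon k w) := by
  funext i
  refine Fin.cases ?_ (fun i => ?_) i
  · show mon (k + 2) (sh 2 w) 0 = 0
    unfold mon sh
    rw [List.map_map]
    apply List.sum_eq_zero
    intro x hx
    rw [List.mem_map] at hx
    obtain ⟨p, -, rfl⟩ := hx
    simp
  · refine Fin.cases ?_ (fun i => ?_) i
    · show mon (k + 2) (sh 2 w) 1 = 0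
      unfold mon sh
      rw [List.map_map]
      apply List.sum_eq_zero
      intro x hx
      rw [List.mem_map] at hx
      obtain ⟨p, -, rfl⟩ := hx
      simp
    · show mon (k + 2) (sh 2 w) i.succ.succ = mon k w i
      unfold mon sh
      rw [List.map_map]
      congr 1
      apply List.map_congr_left
      intro p _
      simp

/-- a monomial which fixes an element fixes it to all powers -/
theorem r2_pow {k : ℕ} {B : Type*} [AddCommGroup B] [Module (L k) B] (u : Fin k → ℤ) (x : B)
    (h : (xp u : L k) • x = x) (n : ℤ) : (xp (n • u) : L k) • x = x := by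
  have hi : (xp (-u) : L k) • x = x := by
    conv_lhs => rw [← h]
    rw [smul_smul, ← xp_add, neg_add_cancel, xp_zero, one_smul]
  induction n using Int.induction_on with
  | zero => rw [zero_smul, xp_zero, one_smul]
  | succ n ih => rw [add_smul, one_smul, xp_add, mul_smul, h, ih]
  | pred n ih => rw [sub_smul, one_smul, sub_eq_add_neg, xp_add, mul_smul, hi, ih]

/-- R2: the model -/
theorem r2_model (c : MCode) :
    ∃ Ψ : PM (c.1 + 2) c.2.1 (semiFr c).2.2 ≃+ PM c.1 c.2.1 c.2.2,
      ∀ (a b : ℤ) (v : Fin c.1 → ℤ) m, Ψ (xp (fr a b v) • m) = xp v • Ψ m := by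
  obtain ⟨k, b, R⟩ := c
  simp only
  set R' := (semiFr (k, b, R)).2.2 with hR'
  have hR'e : R' = R.map (shr 0 2) ++ (List.range b).map (eqn 0 · 1) ++ (List.range b).map (eqn 1 · 1) := rfl
  -- the first map
  obtain ⟨f, hf1, hf2⟩ := up (k := k + 2) (b := b) (R := R') (B := PM k b R)
    (fun w => DistribSMul.toAddMonoidHom _ (xp (r2_tl w) : L k))
    (fun x => by
      show (xp (r2_tl 0) : L k) • x = x
      rw [show (r2_tl 0 : Fin k → ℤ) = 0 from rfl, xp_zero, one_smul])
    (fun v w x => by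
      show (xp (r2_tl (v + w)) : L k) • x = (xp (r2_tl v) : L k) • (xp (r2_tl w) : L k) • x
      rw [show (r2_tl (v + w) : Fin k → ℤ) = r2_tl v + r2_tl w from rfl, xp_add, mul_smul])
    (fun i => gen i) (by
      intro r hr
      rw [hR'e, List.mem_append, List.mem_append, List.mem_map, List.mem_map, List.mem_map] at hr
      rcases hr with (⟨r, hr, rfl⟩ | ⟨i, hi, rfl⟩) | ⟨i, hi, rfl⟩
      · rw [← pm_rel (k := k) (b := b) r hr]
        unfold ev shr
        rw [List.map_map]
        congr 1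
        apply List.map_congr_left
        intro t _
        show (if t.1 + 0 < b then sg t.2.1 • ((xp (r2_tl (mon (k + 2) (sh 2 t.2.2))) : L k) •
          (gen (t.1 + 0) : PM k b R)) else 0) = _
        rw [r2_mon_sh, r2_tl_fr, add_zero]
        split_ifs with h
        · rfl
        · rw [gen_of_le (Nat.not_lt.1 h), smul_zero, smul_zero]
      · rw [ev_eqn _ _ (fun x => by
          show (xp (r2_tl 0) : L k) • x = x
          rw [show (r2_tl 0 : Fin k → ℤ) = 0 from rfl, xp_zero, one_smul]) _ _ _ (List.mem_range.1 hi)]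
        show (xp (r2_tl (mon (k + 2) [(0, true)])) : L k) • (gen i : PM k b R) - 1 • (gen i : PM k b R) = 0
        rw [mon_single _ 0 (by omega)]
        have : r2_tl (Pi.single (⟨0, by omega⟩ : Fin (k + 2)) 1 : Fin (k + 2) → ℤ) = 0 := by
          funext i
          simp only [r2_tl, Pi.zero_apply]
          rw [Pi.single_apply, if_neg]
          intro h
          simpa using congrArg Fin.val h
        rw [this, xp_zero, one_smul, one_smul, sub_self]
      · rw [ev_eqn _ _ (fun x => by
          show (xp (r2_tl 0) : L k) • x = x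
          rw [show (r2_tl 0 : Fin k → ℤ) = 0 from rfl, xp_zero, one_smul]) _ _ _ (List.mem_range.1 hi)]
        show (xp (r2_tl (mon (k + 2) [(1, true)])) : L k) • (gen i : PM k b R) - 1 • (gen i : PM k b R) = 0
        rw [mon_single _ 1 (by omega)]
        have : r2_tl (Pi.single (⟨1, by omega⟩ : Fin (k + 2)) 1 : Fin (k + 2) → ℤ) = 0 := by
          funext i
          simp only [r2_tl, Pi.zero_apply]
          rw [Pi.single_apply, if_neg]
          intro h
          simpa using congrArg Fin.val h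
        rw [this, xp_zero, one_smul, one_smul, sub_self])
  replace hf2 : ∀ (w : Fin (k + 2) → ℤ) m, f (xp w • m) = (xp (r2_tl w) : L k) • f m := hf2
  -- the second map
  obtain ⟨g, hg1, hg2⟩ := up (k := k) (b := b) (R := R) (B := PM (k + 2) b R')
    (fun w => DistribSMul.toAddMonoidHom _ (xp (fr 0 0 w) : L (k + 2)))
    (fun x => by
      show (xp (fr 0 0 0) : L (k + 2)) • x = x
      rw [r2_fr_zero, xp_zero, one_smul])
    (fun v w x => by
      show (xp (fr 0 0 (v + w)) : L (k + 2)) • x =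
        (xp (fr 0 0 v) : L (k + 2)) • (xp (fr 0 0 w) : L (k + 2)) • x
      have := r2_fr_add 0 0 0 0 v w
      rw [add_zero] at this
      rw [this, xp_add, mul_smul])
    (fun i => gen i) (by
      intro r hr
      have hr' : shr 0 2 r ∈ R' := by
        rw [hR'e, List.mem_append, List.mem_append, List.mem_map]
        exact Or.inl (Or.inl ⟨r, hr, rfl⟩)
      rw [← pm_rel (k := k + 2) (b := b) _ hr']
      unfold ev shr
      rw [List.map_map]
      congr 1
      apply List.map_congr_left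
      intro t _
      show (if t.1 < b then sg t.2.1 • ((xp (fr 0 0 (mon k t.2.2)) : L (k + 2)) •
        (gen t.1 : PM (k + 2) b R')) else 0) =
        sg t.2.1 • ((xp (mon (k + 2) (sh 2 t.2.2)) : L (k + 2)) • (gen (t.1 + 0) : PM (k + 2) b R'))
      rw [r2_mon_sh, add_zero]
      split_ifs with h
      · rfl
      · rw [gen_of_le (Nat.not_lt.1 h), smul_zero, smul_zero])
  replace hg2 : ∀ (w : Fin k → ℤ) m, g (xp w • m) = (xp (fr 0 0 w) : L (k + 2)) • g m := hg2
  -- the framed variables fix the generators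
  have hfix : ∀ (i : ℕ) (_ : i < b) (s t : ℤ) (v : Fin k → ℤ),
      (xp (fr s t v) : L (k + 2)) • (gen i : PM (k + 2) b R') = (xp (fr 0 0 v) : L (k + 2)) • gen i := by
    intro i hi s t v
    have e0 := pm_eqn (k := k + 2) (b := b) (R := R') 0 i 1 (by
      rw [hR'e, List.mem_append, List.mem_append, List.mem_map, List.mem_map]
      exact Or.inl (Or.inr ⟨i, List.mem_range.2 hi, rfl⟩))
    have e1 := pm_eqn (k := k + 2) (b := b) (R := R') 1 i 1 (by
      rw [hR'e, List.mem_append, List.mem_map]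
      exact Or.inr ⟨i, List.mem_range.2 hi, rfl⟩)
    rw [one_smul] at e0 e1
    have e2 : fr s t v = fr 0 0 v + (s • mon (k + 2) [(0, true)] + t • mon (k + 2) [(1, true)]) := by
      rw [mon_single _ 0 (by omega), mon_single _ 1 (by omega)]
      funext j
      refine Fin.cases ?_ (fun j => ?_) j
      · simp [fr]
      · refine Fin.cases ?_ (fun j => ?_) j
        · simp [fr]
        · simp only [fr, Fin.cons_succ, Pi.add_apply, Pi.smul_apply, Pi.single_apply]
          rw [if_neg, if_neg]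
          · simp
          · intro h
            simpa using congrArg Fin.val h
          · intro h
            simpa using congrArg Fin.val h
    rw [e2, xp_add, mul_smul, xp_add, mul_smul, r2_pow _ _ e1, r2_pow _ _ e0]
  have hfg : ∀ m, f (g m) = m := by
    intro m
    have h1 : f.comp g = AddMonoidHom.id _ := by
      apply pm_ext
      intro v i hi
      rw [AddMonoidHom.comp_apply, AddMonoidHom.id_apply, hg2, hf2, hg1 i hi, hf1 i hi, r2_tl_fr]
    exact DFunLike.congr_fun h1 m
  have hgf : ∀ m, g (f m) = m := by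
    intro m
    have h1 : g.comp f = AddMonoidHom.id _ := by
      apply pm_ext
      intro v i hi
      rw [AddMonoidHom.comp_apply, AddMonoidHom.id_apply, hf2, hg2, hf1 i hi, hg1 i hi]
      conv_rhs => rw [← r2_fr_tl v]
      exact (hfix i hi _ _ _).symm
    exact DFunLike.congr_fun h1 m
  refine ⟨{ toFun := f, invFun := g, left_inv := hgf, right_inv := hfg, map_add' := map_add f }, ?_⟩
  intro s t v m
  show f (xp (fr s t v) • m) = xp v • f m
  rw [hf2, r2_tl_fr]

/-- R2 -/
theorem r2 (p : MCode × MCode) : SemiIso p ↔ FrIso (semiFr p.1, semiFr p.2) := by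
  obtain ⟨Ψ, hΨ⟩ := r2_model p.1
  obtain ⟨Ψ', hΨ'⟩ := r2_model p.2
  have hs : ∀ (a b : ℤ) (v : Fin p.1.1 → ℤ) m, Ψ.symm (xp v • m) = xp (fr a b v) • Ψ.symm m := by
    intro a b v m
    apply Ψ.injective
    rw [hΨ, AddEquiv.apply_symm_apply, AddEquiv.apply_symm_apply]
  have hs' : ∀ (a b : ℤ) (v : Fin p.2.1 → ℤ) m, Ψ'.symm (xp v • m) = xp (fr a b v) • Ψ'.symm m := by
    intro a b v m
    apply Ψ'.injective
    rw [hΨ', AddEquiv.apply_symm_apply, AddEquiv.apply_symm_apply]
  constructor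
  · rintro ⟨σ, φ, h⟩
    have key : ∀ (a b : ℤ) (v : Fin p.1.1 → ℤ) (m : PM (p.1.1 + 2) p.1.2.1 (semiFr p.1).2.2),
        Ψ'.symm (φ (Ψ (xp (fr a b v) • m))) =
          (xp (fr a b (σ v)) : L (p.2.1 + 2)) • Ψ'.symm (φ (Ψ m)) := by
      intro a b v m
      rw [hΨ, h, hs' a b]
    exact ⟨σ, (Ψ.trans φ).trans Ψ'.symm, key⟩
  · rintro ⟨σ, φ, h⟩
    change PM (p.1.1 + 2) p.1.2.1 (semiFr p.1).2.2 ≃+ PM (p.2.1 + 2) p.2.2.1 (semiFr p.2).2.2 at φ
    change (Fin p.1.1 → ℤ) ≃+ (Fin p.2.1 → ℤ) at σ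
    have h' : ∀ (v : Fin p.1.1 → ℤ) (m : PM (p.1.1 + 2) p.1.2.1 (semiFr p.1).2.2),
        φ ((xp (fr 0 0 v) : L (p.1.1 + 2)) • m) = (xp (fr 0 0 (σ v)) : L (p.2.1 + 2)) • φ m :=
      fun v m => h 0 0 v m
    have key : ∀ (v : Fin p.1.1 → ℤ) (m : PM p.1.1 p.1.2.1 p.1.2.2),
        Ψ' (φ (Ψ.symm ((xp v : L p.1.1) • m))) = (xp (σ v) : L p.2.1) • Ψ' (φ (Ψ.symm m)) := by
      intro v m
      rw [hs 0 0, h', hΨ']
    exact ⟨σ, (Ψ.symm.trans φ).trans Ψ', key⟩

end Pool.Agent.MET
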