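import Pool.Agent.Lib_helper53.MET.Defs2
import Pool.Agent.Lib_helper12.MET.R7u

/-! # MP_760942_al: block R7b -/

set_option autoImplicit false

namespace Pool.Agent.MET

theorem r7b_xp_inj {k : ℕ} {v w : Fin k → ℤ} {e e' : ℤ} (he : e = 1 ∨ e = -1)
    (h : e • (xp v : L k) = e' • xp w) : v = w ∧ e = e' := by
  classical
  have hc : ∀ (n : ℤ) (x y : Fin k → ℤ), (n • (xp x : L k)).coeff y = if x = y then n else 0 := by
    intro n x y
    rw [xp, AddMonoidAlgebra.smul_single, AddMonoidAlgebra.coeff_single, Finsupp.single_apply]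
    simp
  have h1 := congrArg (fun z : L k => z.coeff v) h
  simp only [hc, if_true] at h1
  have hne : e ≠ 0 := by rcases he with rfl | rfl <;> norm_num
  by_cases hvw : w = v
  · rw [if_pos hvw] at h1
    exact ⟨hvw.symm, h1⟩
  · rw [if_neg hvw] at h1
    exact absurd h1 hne

/-- an isomorphism of the rings preserves the kernels of the projections -/
theorem r7b_ker {k k' : ℕ} {M M' S S' : Type} [AddCommGroup M] [Module (L k) M] [AddCommGroup M']
    [Module (L k') M'] [CommRing S] [CommRing S'] (D : RingData k M S) (D' : RingData k' M' S')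
    (e : S ≃+* S') (m : M) : D'.π (e (D.j m)) = 0 := by
  have h1 : D'.π (e (D.j m)) * D'.π (e (D.j m)) = 0 := by
    rw [← map_mul, ← map_mul, D.sq, map_zero, map_zero]
  exact mul_self_eq_zero.1 h1

theorem r7b_phi {k k' : ℕ} {M M' S S' : Type} [AddCommGroup M] [Module (L k) M] [AddCommGroup M']
    [Module (L k') M'] [CommRing S] [CommRing S'] (D : RingData k M S) (D' : RingData k' M' S')
    (e : S ≃+* S') : ∃ φ : M → M', ∀ m, D'.j (φ m) = e (D.j m) := by
  have h : ∀ m, ∃ m', D'.j m' = e (D.j m) := fun m => D'.ker _ (r7b_ker D D' e m)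
  choose φ hφ using h
  exact ⟨φ, hφ⟩

/-- the induced map of the Laurent polynomial rings has an inverse -/
theorem r7b_inv {k k' : ℕ} {M M' S S' : Type} [AddCommGroup M] [Module (L k) M] [AddCommGroup M']
    [Module (L k') M'] [CommRing S] [CommRing S'] (D : RingData k M S) (D' : RingData k' M' S')
    (e : S ≃+* S') (a : L k) : D.π (e.symm (D'.κ (D'.π (e (D.κ a))))) = a := by
  obtain ⟨m', hm'⟩ := D'.ker (e (D.κ a) - D'.κ (D'.π (e (D.κ a)))) (by rw [map_sub, D'.πκ, sub_self])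
  have h1 : D'.κ (D'.π (e (D.κ a))) = e (D.κ a) - D'.j m' := by rw [hm']; ring
  rw [h1, map_sub, map_sub, r7b_ker D' D e.symm, RingEquiv.symm_apply_apply, D.πκ, sub_zero]

theorem r7b_sig {k k' : ℕ} {M M' S S' : Type} [AddCommGroup M] [Module (L k) M] [AddCommGroup M']
    [Module (L k') M'] [CommRing S] [CommRing S'] (D : RingData k M S) (D' : RingData k' M' S')
    (e : S ≃+* S') : ∃ (σ : (Fin k → ℤ) → (Fin k' → ℤ)) (ε : (Fin k → ℤ) → ℤ),
      (∀ v, ε v = 1 ∨ ε v = -1) ∧ ∀ v, D'.π (e (D.κ (xp v))) = ε v • xp (σ v) := by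
  have h : ∀ v : Fin k → ℤ, ∃ (w : Fin k' → ℤ) (n : ℤ), (n = 1 ∨ n = -1) ∧
      D'.π (e (D.κ (xp v))) = n • xp w := by
    intro v
    have hu : ∀ v : Fin k → ℤ, D'.π (e (D.κ (xp v))) * D'.π (e (D.κ (xp (-v)))) = 1 := by
      intro v
      rw [← map_mul, ← map_mul, ← map_mul, ← xp_add, add_neg_cancel, xp_zero, map_one, map_one, map_one]
    obtain ⟨w, n, hn, hw⟩ := unit_lk (Units.mkOfMulEqOne _ _ (hu v))
    exact ⟨w, n, hn, hw⟩
  choose σ ε h1 h2 using h
  exact ⟨σ, ε, h1, h2⟩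

/-- R7b (from R7u) -/
theorem r7b {k k' : ℕ} {M M' S S' : Type} [AddCommGroup M] [Module (L k) M] [AddCommGroup M'] [Module (L k') M']
    [CommRing S] [CommRing S'] (D : RingData k M S) (D' : RingData k' M' S') (e : S ≃+* S') :
    ∃ (σ : (Fin k → ℤ) ≃+ (Fin k' → ℤ)) (ε : (Fin k → ℤ) → ℤ) (φ : M ≃+ M'),
      (∀ v, ε v = 1 ∨ ε v = -1) ∧ (∀ v w, ε (v + w) = ε v * ε w) ∧
      ∀ (v : Fin k → ℤ) (m : M), φ ((xp v : L k) • m) = ε v • (xp (σ v) : L k') • φ m := by
  obtain ⟨σ, ε, hε, hσ⟩ := r7b_sig D D' e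
  obtain ⟨σ', ε', hε', hσ'⟩ := r7b_sig D' D e.symm
  obtain ⟨φ, hφ⟩ := r7b_phi D D' e
  obtain ⟨φ', hφ'⟩ := r7b_phi D' D e.symm
  have hadd : ∀ v w, σ (v + w) = σ v + σ w ∧ ε (v + w) = ε v * ε w := by
    intro v w
    apply r7b_xp_inj (hε _)
    rw [← hσ, xp_add, map_mul, map_mul, map_mul, hσ, hσ, xp_add, smul_mul_smul_comm]
  have hinv : ∀ v, σ' (σ v) = v := by
    intro v
    have h1 := r7b_inv D D' e (xp v)
    rw [hσ, map_zsmul, map_zsmul, map_zsmul, hσ', smul_smul] at h1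
    have h2 : (1 : ℤ) • (xp v : L k) = (ε v * ε' (σ v)) • xp (σ' (σ v)) := by rw [h1, one_smul]
    exact (r7b_xp_inj (Or.inl rfl) h2).1.symm
  have hinv' : ∀ v, σ (σ' v) = v := by
    intro v
    have h1 := r7b_inv D' D e.symm (xp v)
    rw [RingEquiv.symm_symm, hσ', map_zsmul, map_zsmul, map_zsmul, hσ, smul_smul] at h1
    have h2 : (1 : ℤ) • (xp v : L k') = (ε' v * ε (σ' v)) • xp (σ (σ' v)) := by rw [h1, one_smul]
    exact (r7b_xp_inj (Or.inl rfl) h2).1.symm
  refine ⟨{ toFun := σ, invFun := σ', left_inv := hinv, right_inv := hinv', map_add' := fun v w => (hadd v w).1 },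
    ε, { toFun := φ, invFun := φ', left_inv := ?_, right_inv := ?_, map_add' := ?_ }, hε,
    fun v w => (hadd v w).2, ?_⟩
  · intro m
    apply D.inj
    rw [hφ', hφ, RingEquiv.symm_apply_apply]
  · intro m
    apply D'.inj
    rw [hφ, hφ', RingEquiv.apply_symm_apply]
  · intro m n
    apply D'.inj
    rw [hφ, map_add, map_add, map_add, hφ, hφ]
  · intro v m
    apply D'.inj
    change D'.j (φ ((xp v : L k) • m)) = D'.j (ε v • (xp (σ v) : L k') • φ m)
    obtain ⟨m', hm'⟩ := D'.ker (e (D.κ (xp v)) - D'.κ (D'.π (e (D.κ (xp v)))))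
      (by rw [map_sub, D'.πκ, sub_self])
    have h1 : e (D.κ (xp v)) = D'.κ (D'.π (e (D.κ (xp v)))) + D'.j m' := by rw [hm']; ring
    rw [hφ, ← D.smul, map_mul, h1, ← hφ, add_mul, D'.sq, add_zero, D'.smul, hσ, smul_assoc]

end Pool.Agent.MET
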