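import Pool.Agent.Lib_helper53.MET.Defs2

/-! # MP_760942_al: block R7c -/

set_option autoImplicit false

namespace Pool.Agent.MET

/-- every element of the trivial extension is a sum of its two components -/
theorem r7c_mu {k : ℕ} {M S : Type} [AddCommGroup M] [Module (L k) M] [CommRing S] (D : RingData k M S) :
    ∃ μ : S →+ M, (∀ s, s = D.κ (D.π s) + D.j (μ s)) ∧ (∀ m, μ (D.j m) = m) ∧
      (∀ a, μ (D.κ a) = 0) ∧ ∀ s t, μ (s * t) = D.π s • μ t + D.π t • μ s := by
  have h1 : ∀ s, ∃ m, D.j m = s - D.κ (D.π s) := by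
    intro s
    apply D.ker
    rw [map_sub, D.πκ, sub_self]
  choose μ hμ using h1
  have hu : ∀ s m, D.j m = s - D.κ (D.π s) → μ s = m := by
    intro s m h
    apply D.inj
    rw [hμ, h]
  refine ⟨{ toFun := μ, map_zero' := ?_, map_add' := ?_ }, ?_, ?_, ?_, ?_⟩
  · apply hu
    simp
  · intro s t
    apply hu
    rw [map_add, hμ, hμ, map_add, map_add]
    ring
  · intro s
    show s = D.κ (D.π s) + D.j (μ s)
    rw [hμ]
    ring
  · intro m
    apply hu
    rw [D.πj, map_zero, sub_zero]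
  · intro a
    apply hu
    rw [map_zero, D.πκ, sub_self]
  · intro s t
    apply hu
    have hs : s = D.κ (D.π s) + D.j (μ s) := by rw [hμ]; ring
    have ht : t = D.κ (D.π t) + D.j (μ t) := by rw [hμ]; ring
    have e1 : s * t = D.κ (D.π s) * D.κ (D.π t) + D.j (D.π s • μ t) + D.j (D.π t • μ s) := by
      conv_lhs => rw [hs, ht]
      rw [← D.smul, ← D.smul]
      have := D.sq (μ s) (μ t)
      linear_combination this
    change D.j (D.π s • μ t + D.π t • μ s) = _
    rw [map_add, map_mul, map_mul, e1]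
    ring

/-- the change of variables of a semilinear map -/
theorem r7c_semi {k k' : ℕ} {M M' : Type} [AddCommGroup M] [Module (L k) M] [AddCommGroup M']
    [Module (L k') M'] (σ : (Fin k → ℤ) ≃+ (Fin k' → ℤ)) (φ : M ≃+ M')
    (h : ∀ (v : Fin k → ℤ) (m : M), φ ((xp v : L k) • m) = (xp (σ v) : L k') • φ m) (a : L k) (m : M) :
    φ (a • m) = tw σ a • φ m := by
  refine L_induction (motive := fun a => φ (a • m) = tw σ a • φ m) a ?_ ?_ ?_ ?_
  · rw [zero_smul, map_zero, map_zero, zero_smul]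
  · intro a b ha hb
    rw [add_smul, map_add, ha, hb, map_add, add_smul]
  · intro a ha
    rw [neg_smul, map_neg, ha, map_neg, neg_smul]
  · intro v
    rw [h, tw_xp]

theorem r7c_tw {k k' : ℕ} (σ : (Fin k → ℤ) ≃+ (Fin k' → ℤ)) (a : L k) : tw σ.symm (tw σ a) = a := by
  refine L_induction (motive := fun a => tw σ.symm (tw σ a) = a) a ?_ ?_ ?_ ?_
  · rw [map_zero, map_zero]
  · intro a b ha hb
    rw [map_add, map_add, ha, hb]
  · intro a ha
    rw [map_neg, map_neg, ha]
  · intro v
    rw [tw_xp, tw_xp, AddEquiv.symm_apply_apply]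

theorem r7c_tw' {k k' : ℕ} (σ : (Fin k → ℤ) ≃+ (Fin k' → ℤ)) (a : L k') : tw σ (tw σ.symm a) = a := by
  have := r7c_tw σ.symm a
  rwa [AddEquiv.symm_symm] at this

/-- R7c -/
theorem r7c {k k' : ℕ} {M M' S S' : Type} [AddCommGroup M] [Module (L k) M] [AddCommGroup M'] [Module (L k') M']
    [CommRing S] [CommRing S'] (D : RingData k M S) (D' : RingData k' M' S')
    (σ : (Fin k → ℤ) ≃+ (Fin k' → ℤ)) (φ : M ≃+ M')
    (h : ∀ (v : Fin k → ℤ) (m : M), φ ((xp v : L k) • m) = (xp (σ v) : L k') • φ m) :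
    Nonempty (S ≃+* S') := by
  obtain ⟨μ, h1, h2, h3, h4⟩ := r7c_mu D
  obtain ⟨μ', h1', h2', h3', -⟩ := r7c_mu D'
  have hφ := r7c_semi σ φ h
  have hm1 : μ 1 = 0 := by rw [← map_one D.κ, h3]
  let f : S →+* S' :=
    { toFun := fun s => D'.κ (tw σ (D.π s)) + D'.j (φ (μ s))
      map_one' := by rw [map_one, map_one, map_one, hm1, map_zero, map_zero, add_zero]
      map_zero' := by rw [map_zero, map_zero, map_zero, map_zero, map_zero, map_zero, add_zero]
      map_add' := fun s t => by
        rw [map_add, map_add, map_add, map_add, map_add, map_add]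
        ring
      map_mul' := fun s t => by
        have e1 := D'.sq (φ (μ s)) (φ (μ t))
        rw [h4, map_mul, map_mul, map_mul, map_add, map_add, hφ, hφ, ← D'.smul, ← D'.smul]
        linear_combination -e1 }
  have hf : ∀ s, f s = D'.κ (tw σ (D.π s)) + D'.j (φ (μ s)) := fun _ => rfl
  refine ⟨RingEquiv.ofBijective f ⟨?_, ?_⟩⟩
  · rw [injective_iff_map_eq_zero]
    intro s hs
    rw [hf] at hs
    have e1 : tw σ (D.π s) = 0 := by
      have := congrArg D'.π hs
      rwa [map_add, D'.πκ, D'.πj, add_zero, map_zero] at this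
    rw [e1, map_zero, zero_add] at hs
    have e2 : φ (μ s) = 0 := D'.inj (by rw [hs, map_zero])
    have e3 : μ s = 0 := φ.injective (by rw [e2, map_zero])
    have e4 : D.π s = 0 := by rw [← r7c_tw σ (D.π s), e1, map_zero]
    rw [h1 s, e3, e4, map_zero, map_zero, add_zero]
  · intro t
    refine ⟨D.κ (tw σ.symm (D'.π t)) + D.j (φ.symm (μ' t)), ?_⟩
    rw [hf, map_add, D.πκ, D.πj, add_zero, r7c_tw', map_add, h3, h2, zero_add,
      AddEquiv.apply_symm_apply]
    exact (h1' t).symm

end Pool.Agent.MET
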