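import Pool.Agent.Lib_helper48.MET.PIN0
import Pool.Agent.Lib_helper12.MET.R6a
import Pool.Agent.Lib_helper81.MET.R3m

/-! # MP_760942_al: block R9 -/

set_option autoImplicit false

namespace Pool.Agent.MET

theorem r9_z {k : ℕ} (n : ℕ) (hn : 0 < n) (a : AddMonoidAlgebra ℤ (Fin k → ℤ)) (h : n • a = 0) : a = 0 := by
  apply AddMonoidAlgebra.coeff_injective
  ext v
  have h1 := congrArg (fun z : AddMonoidAlgebra ℤ (Fin k → ℤ) => z.coeff v) h
  have h2 : n • a.coeff v = 0 := h1
  rw [nsmul_eq_mul] at h2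
  rcases mul_eq_zero.1 h2 with h3 | h3
  · exact absurd (Nat.cast_eq_zero.1 h3) hn.ne'
  · exact h3

theorem r9_q {k : ℕ} (n : ℕ) (hn : 0 < n) (a : AddMonoidAlgebra ℚ (Fin k → ℤ)) (h : n • a = 0) : a = 0 := by
  apply AddMonoidAlgebra.coeff_injective
  ext v
  have h1 := congrArg (fun z : AddMonoidAlgebra ℚ (Fin k → ℤ) => z.coeff v) h
  have h2 : n • a.coeff v = 0 := h1
  rw [nsmul_eq_mul] at h2
  rcases mul_eq_zero.1 h2 with h3 | h3
  · exact absurd (Nat.cast_eq_zero.1 h3) hn.ne'
  · exact h3

/-- the pinned module of the module of a matrix is torsion free -/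
theorem r9_tf (k m : ℕ) (A : Ent) (n : ℕ) (hn : 0 < n) (y : Mp (simFr k m A)) (h : n • y = 0) : y = 0 := by
  obtain ⟨D⟩ := pin0 (simFr k m A)
  obtain ⟨Φ, -⟩ := simFr_model k m A
  change PM ((simFr k m A).1 + 2) (simFr k m A).2.1 (simFr k m A).2.2 ≃+ _ at Φ
  set z := x3 1 0 0 (0 : Fin (simFr k m A).1 → ℤ) with hz
  have q := D.quad y
  rw [← hz] at q
  -- the first part
  have h1 : 2 • y - z • y = 0 := by
    have h2 : z • (2 • y - z • y) = 2 • y - z • y := by
      rw [smul_sub, smul_comm z 2 y, q]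
      module
    obtain ⟨m', hm'⟩ := D.ker1 _ h2
    have h3 : n • m' = 0 := by
      apply D.inj
      rw [map_nsmul, hm', map_zero, smul_sub, smul_comm n 2 y, smul_comm n z y, h, smul_zero, smul_zero,
        sub_zero]
    have h4 : Φ m' = 0 := by
      have h5 : n • Φ m' = 0 := by rw [← map_nsmul, h3, map_zero]
      refine Prod.ext ?_ ?_
      · funext i
        exact r9_z n hn _ (congrFun (congrArg Prod.fst h5) i)
      · funext i
        exact r9_z n hn _ (congrFun (congrArg Prod.snd h5) i)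
    have h6 : m' = 0 := Φ.injective (by rw [h4, map_zero])
    rw [← hm', h6, map_zero]
  have h2 : z • y - y = 0 := by
    apply D.joint
    · rw [← hz, smul_sub, q]
      module
    · apply r9_q n hn
      rw [← map_nsmul, smul_sub, smul_comm n z y, h, smul_zero, sub_zero, map_zero]
    · have h3 : n • D.thT (z • y - y) = 0 := by
        rw [← map_nsmul, smul_sub, smul_comm n z y, h, smul_zero, sub_zero, map_zero]
      rw [nsmul_eq_mul] at h3
      rcases mul_eq_zero.1 h3 with h4 | h4
      · exact absurd (Nat.cast_eq_zero.1 h4) hn.ne'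
      · exact h4
  rw [sub_eq_zero] at h1 h2
  rw [h2, two_nsmul] at h1
  simpa using h1

/-- a split group with a torsion free module is torsion free -/
theorem r9_sd {k : ℕ} {M : Type*} [AddCommGroup M] [Module (L k) M]
    (hM : ∀ (n : ℕ) (_ : 0 < n) (y : M), n • y = 0 → y = 0) (x : SD k M) (n : ℕ) (hn : 0 < n)
    (hx : x ^ n = 1) : x = 1 := by
  have h1 : x.right = 1 := by
    have h2 : (SemidirectProduct.rightHom x) ^ n = 1 := by rw [← map_pow, hx, map_one]
    have h3 : n • Multiplicative.toAdd x.right = 0 := h2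
    funext i
    have h4 : n • (Multiplicative.toAdd x.right i) = 0 := congrFun h3 i
    rw [nsmul_eq_mul] at h4
    rcases mul_eq_zero.1 h4 with h5 | h5
    · exact absurd (Nat.cast_eq_zero.1 h5) hn.ne'
    · exact h5
  have h2 : x = SemidirectProduct.inl x.left := by
    apply SemidirectProduct.ext
    · rw [SemidirectProduct.left_inl]
    · rw [SemidirectProduct.right_inl, h1]
  rw [h2, ← map_pow] at hx
  have h3 : x.left ^ n = 1 := SemidirectProduct.inl_injective (by rw [hx, map_one])
  have h4 : Multiplicative.toAdd x.left = 0 := hM n hn _ h3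
  have h5 : x.left = 1 := h4
  rw [h2, h5, map_one]

/-- R9 (from R6a, PIN0, R3m) -/
theorem r9 (k m : ℕ) (A : Ent) (x : MG (grp (pin (simFr k m A)))) (n : ℕ) (hn : 0 < n) (hx : x ^ n = 1) : x = 1 := by
  obtain ⟨e⟩ := r6a (pin (simFr k m A))
  have h1 : e x = 1 := by
    refine r9_sd (k := (pin (simFr k m A)).1) (M := PM (pin (simFr k m A)).1 (pin (simFr k m A)).2.1
      (pin (simFr k m A)).2.2) ?_ (e x) n hn ?_
    · intro n hn y hy
      exact r9_tf k m A n hn y hy
    · rw [← map_pow, hx, map_one]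
  exact e.injective (by rw [h1, map_one])

end Pool.Agent.MET
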